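import Mathlib
import Pool.Agent.Q34.A4
import Pool.Agent.Q34.C4

set_option autoImplicit false

namespace Pool.Agent.Results.MP_950ea9_nt.SunThreeKPlusOne

open Finset Pool.Agent.Helper857.Pad Pool.Agent.Helper857.W Pool.Agent.Q34

/-- rising factorial `(x)_k = x (x+1) ... (x+k-1)` -/
def poch (x : ℚ) (k : ℕ) : ℚ := ∏ i ∈ range k, (x + i)

/-- `S(p,r) = ∑_{k=0}^{p^r-1} (3k+1) (1/2)_k^3 / k!^3 * 2^{2k}` -/
def S (p r : ℕ) : ℚ :=
  ∑ k ∈ range (p ^ r),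
    (3 * (k : ℚ) + 1) * (poch (1 / 2) k ^ 3 / ((k.factorial : ℕ) : ℚ) ^ 3) * 2 ^ (2 * k)

/-- For every prime `p > 3` and every `r ≥ 1`,
`S(p,r) ≡ p^r + (7/6) B_{p-3} p^{r+3} (mod p^{r+4})`. -/
theorem result (p r : ℕ) (hp : p.Prime) (h3 : 3 < p) (hr : 1 ≤ r) :
    ∃ u : ℚ, Nat.Coprime u.den p ∧
      S p r - ((p : ℚ) ^ r + 7 / 6 * bernoulli (p - 3) * (p : ℚ) ^ (r + 3)) =
        (p : ℚ) ^ (r + 4) * u := by
  have : Fact p.Prime := ⟨hp⟩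
  have hodd : p % 2 = 1 := by
    rcases hp.eq_two_or_odd with h | h <;> omega
  have h5 : 5 ≤ p := by
    by_contra hlt
    have : p ≠ 4 := by omega
    omega
  have hpa : (p ^ r) % 2 = 1 := Nat.odd_iff.mp ((Nat.odd_iff.mpr hodd).pow)
  obtain ⟨R, hR⟩ : ∃ R, 2 * R + 1 = p ^ r := ⟨p ^ r / 2, by omega⟩
  have hB : S p r = C4.T (2 * R + 1) := by
    unfold S C4.T
    rw [← hR]
    refine sum_congr rfl fun k _ => ?_
    rw [A4.be_rf, pow_mul]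
    unfold poch
    rw [show (2 : ℚ) ^ 2 = 4 by norm_num]
    ring
  have m (n : ℕ) : ((n:ℕ):ℚ) ∈ Zp p := nat_mem n
  have n3 : ¬ p ∣ 3 := fun h => absurd (Nat.le_of_dvd (by norm_num) h) (by omega)
  have n2 : ¬ p ∣ 2 := fun h => absurd (Nat.le_of_dvd (by norm_num) h) (by omega)
  have n12 : ¬ p ∣ 12 := by
    intro h
    rw [show 12 = 2 * (2 * 3) by norm_num, hp.dvd_mul] at h
    rcases h with h | h
    · exact n2 h
    · rw [hp.dvd_mul] at h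
      exact h.elim n2 n3
  have cr := classred (p := p) hr hR (by omega)
  have f := A4.fin5' (p := p) hr hR h5
  have hb := harm3 (p := p) h5
  have key : I p 4 (A4.S R / ((2 * R + 1 : ℕ) : ℚ) - (1 + 7 / 6 * bernoulli (p - 3) * (p : ℚ) ^ 3)) := by
    apply I.cancel n12
    have e : ((12 : ℕ) : ℚ) * (A4.S R / ((2 * R + 1 : ℕ) : ℚ) - (1 + 7 / 6 * bernoulli (p - 3) * (p : ℚ) ^ 3)) =
        (12 * (A4.S R / ((2 * R + 1 : ℕ) : ℚ) - 1) + 7 * HH ((2*R+1:ℕ):ℚ) R) -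
        7 * (HH ((2*R+1:ℕ):ℚ) R - (p:ℚ)^3 * ∑ j ∈ Icc 1 ((p-1)/2), 1/(j:ℚ)^3) -
        7 * ((p:ℚ)^3 * (∑ j ∈ Icc 1 ((p-1)/2), 1/(j:ℚ)^3 + 2 * bernoulli (p-3))) := by
      push_cast; ring
    rw [e]
    refine (f.sub (I.mem_mul (by exact_mod_cast m 7) cr)).sub (I.mem_mul (by exact_mod_cast m 7) ?_)
    exact (I.p_pow 3).mul hb
  have key2 := C4.compare (p := p) hr hR
  have key3 : I p 4 (C4.T (2 * R + 1) / ((2 * R + 1 : ℕ) : ℚ) -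
      (1 + 7 / 6 * bernoulli (p - 3) * (p : ℚ) ^ 3)) := by
    have := key.sub key2
    convert this using 1
    ring
  have hP : ((2 * R + 1 : ℕ) : ℚ) = (p : ℚ) ^ r := by rw [hR]; push_cast; ring
  have hP0 : (p : ℚ) ^ r ≠ 0 := pow_ne_zero _ (by exact_mod_cast hp.ne_zero)
  rw [hP] at key3
  have k2 := (I.p_pow (p := p) r).mul key3
  have e : (p : ℚ) ^ r * (C4.T (2 * R + 1) / (p : ℚ) ^ r - (1 + 7 / 6 * bernoulli (p - 3) * (p : ℚ) ^ 3)) =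
      C4.T (2 * R + 1) - ((p : ℚ) ^ r + 7 / 6 * bernoulli (p - 3) * (p : ℚ) ^ (r + 3)) := by
    rw [pow_add]
    field_simp
  rw [e] at k2
  rw [hB]
  exact Red.cong_of_I k2

end Pool.Agent.Results.MP_950ea9_nt.SunThreeKPlusOne
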